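import Mathlib
import Pool.Agent.CylE.Cyl
import Pool.Agent.CylE.Exist

/-!
# Entropies of block gluing Z^2-shifts of finite type from explicit transfer matrices

For a nonempty block gluing `ℤ²`-SFT with gap `M` and forbidden patterns in `[-B,B]²`, the entropy
`h` satisfies `(n-M) h ≤ log ρ(T_n) ≤ (n+M) h` for all `n ≥ M+2B+1`, where `T_n` is the explicit
0-1 transfer matrix of the horizontally `n`-periodic strips of `2B+1` rows (of size
`|A|^(n(2B+1))`). So `h` is known to within `1/n` from the spectral radius of one explicit 0-1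
matrix of size `exp(O(n))`.
-/

set_option autoImplicit false

namespace Pool.Agent.Results.MP_7034eb_an.CylinderEntropy

open Pool.Agent.CylE

theorem result {A : Type} [Fintype A] [DecidableEq A] (forb : List (Pattern A)) (M B : ℕ)
    (hne : (sft forb).Nonempty) (hg : BlockGluing (sft forb) M)
    (hB : ∀ p ∈ forb, ∀ u ∈ p.supp, |u.1| ≤ B ∧ |u.2| ≤ B) :
    ∃ h : ℝ, IsEntropy (sft forb) h ∧
      ∀ (n : ℕ) [NeZero n], M + 2 * B + 1 ≤ n →
        ((n : ℝ) - M) * h ≤ Real.log (spectralRadius ℂ (transfer forb B n)).toReal ∧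
          Real.log (spectralRadius ℂ (transfer forb B n)).toReal ≤ ((n : ℝ) + M) * h := by
  obtain ⟨h, hh⟩ := exists_entropy forb hne
  refine ⟨h, hh, fun n _ hn => ?_⟩
  obtain ⟨h1, h2⟩ := spec_bounds hg hne hB hh n hn
  have hpos : 0 < (spectralRadius ℂ (transfer forb B n)).toReal := lt_of_lt_of_le (Real.exp_pos _) h1
  exact ⟨(Real.le_log_iff_exp_le hpos).2 h1, (Real.log_le_iff_le_exp hpos).2 h2⟩

end Pool.Agent.Results.MP_7034eb_an.CylinderEntropy
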