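import Pool.Agent.SVR.PrAlg

/-!
# MP_7034eb_an: pressures with algebraic weights and entropies of strongly irreducible SFTs

`E d` (file `Pool/Agent/SIE/Defs.lean`) is the set of entropies of nonempty strongly irreducible
`ℤ^d`-shifts of finite type, `HasPressure` is defined in `Pool/Agent/SVR/PrDefs.lean`.
-/

namespace Pool.Agent.Results.MP_7034eb_an.Pressures

open SVR SIE

/-- A real number `P` is the pressure of a nonempty strongly irreducible `ℤ^d`-shift of finite type
for positive real algebraic weights of the symbols if and only if `P = h + log t` for some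
`h ∈ E d` and some positive real algebraic number `t`. -/
theorem result (d : ℕ) (hd : 1 ≤ d) (P : ℝ) :
    (∃ (A : Type) (_ : Fintype A) (X : Set (Conf d A)) (w : A → ℝ),
      IsSFT X ∧ X.Nonempty ∧ StronglyIrreducible X ∧ (∀ a, 0 < w a ∧ IsAlgebraic ℚ (w a)) ∧
      HasPressure X w P) ↔
    ∃ h ∈ E d, ∃ t : ℝ, 0 < t ∧ IsAlgebraic ℚ t ∧ P = h + Real.log t :=
  pr_alg d hd P

end Pool.Agent.Results.MP_7034eb_an.Pressures
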