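import Pool.Agent.SVR.Main

/-!
# MP_7034eb_an: free energies of the six-vertex model and entropies of strongly irreducible SFTs

`E d` (file `Pool/Agent/SIE/Defs.lean`) is the set of entropies of nonempty strongly irreducible
`ℤ^d`-shifts of finite type.  `sixZ a b c k` (file `Pool/Agent/SVR/Six.lean`) is the partition
function of the six-vertex model with weights `a, b, c` on the `(k+1) × (k+1)` torus; `IsPerron`
and `ZRing θ = ℤ[θ]` are defined in `Pool/Agent/SVR/Perron.lean`.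
-/

namespace Pool.Agent.Results.MP_7034eb_an.SixVertex

open SVR Filter Topology

/-- Let `a, b, c ≥ 0` be elements of `ℤ[θ]`, `θ` the eigenvalue of a positive eigenvector of a
primitive matrix over `ℕ`, none of `a, b, c` the sum of the other two.  The free energy `P` per
vertex of the six-vertex model along the tori of even side exists, and
`log 2 + N log θ + P` belongs to `E d` for all large `N` and all `d ≥ 2`, and so does
`N log θ + P` if `(a + b + c) / 2` is in `ℤ[θ]`. -/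
theorem result (θ : ℝ) (hθ : IsPerron θ) (a b c : ℝ) (ha : 0 ≤ a) (hb : 0 ≤ b) (hc : 0 ≤ c)
    (ham : a ∈ ZRing θ) (hbm : b ∈ ZRing θ) (hcm : c ∈ ZRing θ) (h1 : a ≠ b + c)
    (h2 : b ≠ a + c) (h3 : c ≠ a + b) :
    ∃ P : ℝ, Tendsto (fun k : ℕ => Real.log (sixZ a b c (2 * k + 1)) / (2 * (k : ℝ) + 2) ^ 2)
        atTop (𝓝 P) ∧
      (∃ N0 : ℕ, ∀ N : ℕ, N0 ≤ N → ∀ d : ℕ, 2 ≤ d →
        Real.log 2 + (N * Real.log θ + P) ∈ SIE.E d) ∧
      ((a + b + c) / 2 ∈ ZRing θ →
        ∃ N0 : ℕ, ∀ N : ℕ, N0 ≤ N → ∀ d : ℕ, 2 ≤ d → N * Real.log θ + P ∈ SIE.E d) := by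
  rw [ZRing_eq] at ham hbm hcm
  rw [ZRing_eq]
  exact main θ hθ a b c ha hb hc ham hbm hcm h1 h2 h3

end Pool.Agent.Results.MP_7034eb_an.SixVertex
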