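import Pool.Agent.SIE.Main

/-!
# MP_7034eb_an: the entropies of all `ℤ`-SFTs, divided by any `K ≥ 1`, lie in `E d`, `d ≥ 2`

`E d` (file `Pool/Agent/SIE/Defs.lean`) is the set of entropies of nonempty strongly irreducible
`ℤ^d`-shifts of finite type.  The `ℤ`-SFT `X` below is only assumed to be nonempty; it need not be
mixing.
-/

namespace Pool.Agent.Results.MP_7034eb_an.ZSFTEntropies

open SIE

/-- For `d ≥ 2`, if `h` is the entropy of some nonempty `ℤ`-shift of finite type and `K ≥ 1`, then
`h / K` is the entropy of some nonempty strongly irreducible `ℤ^d`-shift of finite type. -/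
theorem result (d : ℕ) (hd : 2 ≤ d) (A : Type) [Finite A] (X : Set (Conf 1 A)) (hX : IsSFT X)
    (hne : X.Nonempty) (h : ℝ) (hh : HasEntropy X h) (K : ℕ) (hK : 1 ≤ K) :
    h / K ∈ E d :=
  div_mem d hd X hX hne h hh K hK

end Pool.Agent.Results.MP_7034eb_an.ZSFTEntropies
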